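import Mathlib
import Pool.Agent.helper36.KCDefs
import Pool.Agent.helper82.KCG.Defs
import Pool.Agent.helper82.KCG.Asymp

/-!
The intersecting cover parameter for hypergraphs in which, outside `m` parts and a few special
vertices of each part, every edge meets at most `l` other edges.
-/

namespace Pool.Agent.Results.MP_0386c9_co.ConcentratedIntersections

open Pool.Agent.helper36.KC Pool.Agent.helper82.KCG Filter Asymptotics

theorem result :
    (∀ r : ℕ, 1 ≤ r → kcConc 0 0 0 r r ≤ (r + 1).choose ((r + 1) / 2)) ∧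
    (∀ m b l r : ℕ, m + b ≤ r →
      kcConc m b l r r ≤ (1 + l) *
        (2 ^ (m + b) * ((2 ^ m - m + 1 + 2 * b) * (r - m - b).choose ((r - m - b) / 2)))) ∧
    (∀ m b l r : ℕ, m + b ≤ r → 5 ≤ r → (r + 1).choose (r / 2 + 2) + 1 ≤ kcConc m b l r r) ∧
    (∀ m : ℕ, m ≤ 1 →
      Tendsto (fun r : ℕ => (kcConc m 0 0 r r : ℝ) / ((r + 1).choose ((r + 1) / 2) : ℕ))
        atTop (nhds 1)) ∧
    (∀ m b l : ℕ,
      (fun r : ℕ => (kcConc m b l r r : ℝ)) =Θ[atTop] (fun r : ℕ => (2 : ℝ) ^ r / √(r : ℝ))) ∧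
    (∀ μ β ν : ℕ → ℕ,
      Tendsto (fun r : ℕ => (1 + ν r) * ((2 : ℝ) ^ (μ r) + β r) / √(r : ℝ)) atTop (nhds 0) →
      Tendsto (fun r : ℕ => (kcConc (μ r) (β r) (ν r) r r : ℝ) / 2 ^ r) atTop (nhds 0)) :=
  ⟨fun r hr => (kcConc_le_kcAlmost (Nat.zero_le r) hr).trans
      ((Pool.Agent.helper82.KCA.kcAlmost_zero r r).le.trans (kcTwo_le hr)),
    fun _ _ _ _ hmr => kcConc_le hmr,
    fun _ _ _ _ hmr hr => kcConc_lower hr hmr, fun _ hm => kcConc_asymp hm,
    fun m b l => kcConc_theta m b l, fun μ β ν hμ => kcConc_littleo μ β ν hμ⟩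

end Pool.Agent.Results.MP_0386c9_co.ConcentratedIntersections
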