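import Mathlib
import Pool.Agent.helper36.KCDefs
import Pool.Agent.helper36.KCFam

/-!
Two-sided bounds for the intersecting cover parameter `kc_r(r)`, and its exact value for
`2 ≤ r ≤ 5`.
-/

namespace Pool.Agent.Results.MP_0386c9_co.IntersectingCoverBounds

open Pool.Agent.helper36.KC

theorem result :
    (∀ r : ℕ, 2 ≤ r → kc r r ≤ 2 ^ (r - 1)) ∧
    (∀ r : ℕ, 2 ≤ r → r ≤ 5 → kc r r = 2 ^ (r - 1)) ∧
    (∀ r : ℕ, 5 ≤ r → r.choose (r / 2 + 1) + r.choose (r / 2 + 2) + 1 ≤ kc r r) ∧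
    (∀ m : ℕ, 2 ≤ m →
      (2 * m).choose (m + 1) + (2 * m - 1).choose m + 1 ≤ kc (2 * m) (2 * m)) := by
  refine ⟨fun r hr => kc_le (by omega), ?_, fun r hr => kc_lower hr, fun m hm => kc_even hm⟩
  intro r h2 h5
  interval_cases r
  · exact kc_two
  · exact kc_three
  · exact kc_four
  · exact kc_five

end Pool.Agent.Results.MP_0386c9_co.IntersectingCoverBounds
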